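import Mathlib

/-!
A weak form of Kneser's addition theorem in finite abelian groups:
`|A| + |B| ≤ |A + B| + |stab (A + B)|`.
-/

set_option linter.unusedSectionVars false

open Finset
open scoped Pointwise

namespace Pool.Agent.Helper750.Kneser

variable {G : Type*} [AddCommGroup G] [Fintype G] [DecidableEq G]

/-- The stabilizer of a finite set under translation. -/
def stab (C : Finset G) : AddSubgroup G where
  carrier := {g | ∀ x, g + x ∈ C ↔ x ∈ C}
  zero_mem' := by intro x; simp
  add_mem' := by
    intro a b ha hb x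
    rw [add_assoc]
    exact (ha (b + x)).trans (hb x)
  neg_mem' := by
    intro a ha x
    have := ha (-a + x)
    rw [add_neg_cancel_left] at this
    exact this.symm

theorem mem_stab {C : Finset G} {g : G} : g ∈ stab C ↔ ∀ x, g + x ∈ C ↔ x ∈ C := Iff.rfl

theorem mem_stab_of_forall {C : Finset G} {g : G} (h : ∀ x ∈ C, g + x ∈ C) : g ∈ stab C := by
  have himg : C.image (fun x => g + x) = C := by
    apply Finset.eq_of_subset_of_card_le
    · intro y hy
      rw [Finset.mem_image] at hy
      obtain ⟨x, hx, rfl⟩ := hy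
      exact h x hx
    · rw [Finset.card_image_of_injective _ (add_right_injective g)]
  intro x
  constructor
  · intro hx
    rw [← himg, Finset.mem_image] at hx
    obtain ⟨y, hy, hxy⟩ := hx
    rw [add_right_injective g hxy] at hy
    exact hy
  · exact h x

noncomputable instance (H : AddSubgroup G) : Fintype H := Fintype.ofFinite H

open Classical in
/-- The elements of a subgroup as a finset. -/
noncomputable def els (H : AddSubgroup G) : Finset G := univ.filter (fun x => x ∈ H)

theorem mem_els {H : AddSubgroup G} {x : G} : x ∈ els H ↔ x ∈ H := by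
  simp [els]

theorem card_els_le_of_le {H K : AddSubgroup G} (h : H ≤ K) : (els H).card ≤ (els K).card := by
  apply Finset.card_le_card
  intro x hx
  rw [mem_els] at *
  exact h hx

theorem card_els_pos (H : AddSubgroup G) : 0 < (els H).card :=
  Finset.card_pos.mpr ⟨0, mem_els.mpr H.zero_mem⟩

theorem card_els_bot : (els (⊥ : AddSubgroup G)).card = 1 := by
  rw [Finset.card_eq_one]
  refine ⟨0, ?_⟩
  ext x
  rw [mem_els, Finset.mem_singleton, AddSubgroup.mem_bot]

/-- counting core of the union lemma, at a point `x ∈ C₂ \ C₁`. -/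
theorem union_core {C₁ C₂ : Finset G} {H₁ H₂ : AddSubgroup G}
    (hH₁ : ∀ g ∈ H₁, g ∈ stab C₁) (hH₂ : ∀ g ∈ H₂, g ∈ stab C₂) {k : ℕ}
    (hk : (els (H₁ ⊓ H₂)).card ≤ k)
    (h1 : (C₂ \ C₁).card + k < (els H₁).card) (h2 : (C₁ \ C₂).card + k < (els H₂).card)
    {x : G} (hx2 : x ∈ C₂) (hx1 : x ∉ C₁) : (els H₂).card < (els H₁).card := by
  classical
  set d := (els (H₁ ⊓ H₂)).card with hd
  have hdpos : 0 < d := card_els_pos _
  set U₁ := (els H₂).filter (fun g => x + g ∈ C₁) with hU₁
  set V₁ := (els H₂).filter (fun g => ¬ (x + g ∈ C₁)) with hV₁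
  set U₂ := (els H₁).filter (fun g => x + g ∈ C₂) with hU₂
  set V₂ := (els H₁).filter (fun g => ¬ (x + g ∈ C₂)) with hV₂
  have hs1 : U₁.card + V₁.card = (els H₂).card := Finset.card_filter_add_card_filter_not _
  have hs2 : U₂.card + V₂.card = (els H₁).card := Finset.card_filter_add_card_filter_not _
  -- membership facts
  have hm1 : ∀ a ∈ H₁, ∀ b : G, (x + a + b ∈ C₁ ↔ x + b ∈ C₁) := by
    intro a ha b
    have := hH₁ a ha (x + b)
    rw [← this]
    have e : a + (x + b) = x + a + b := by abel
    rw [e]
  have hm2 : ∀ a ∈ H₂, ∀ b : G, (x + a + b ∈ C₂ ↔ x + b ∈ C₂) := by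
    intro a ha b
    have := hH₂ a ha (x + b)
    rw [← this]
    have e : a + (x + b) = x + a + b := by abel
    rw [e]
  -- products
  have fiber : ∀ (P Q T : Finset G), (∀ a ∈ P, a ∈ H₁) → (∀ b ∈ Q, b ∈ H₂) →
      (∀ a ∈ P, ∀ b ∈ Q, x + a + b ∈ T) → P.card * Q.card ≤ d * T.card := by
    intro P Q T hP hQ hT
    rw [← Finset.card_product]
    have := Finset.card_le_mul_card_image_of_maps_to (s := P ×ˢ Q) (t := T)
      (f := fun z => x + z.1 + z.2) (by
        intro z hz
        rw [Finset.mem_product] at hz
        exact hT z.1 hz.1 z.2 hz.2) d (by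
        intro t ht
        -- fibre over t
        rcases Finset.eq_empty_or_nonempty ((P ×ˢ Q).filter (fun z => x + z.1 + z.2 = t)) with he | ⟨z₀, hz₀⟩
        · rw [he]; simp
        · rw [Finset.mem_filter, Finset.mem_product] at hz₀
          rw [hd]
          apply Finset.card_le_card_of_injOn (fun z => z.1 - z₀.1)
          · intro z hz
            rw [Finset.mem_coe, Finset.mem_filter, Finset.mem_product] at hz
            rw [Finset.mem_coe, mem_els, AddSubgroup.mem_inf]
            refine ⟨H₁.sub_mem (hP _ hz.1.1) (hP _ hz₀.1.1), ?_⟩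
            have e : z.1 - z₀.1 = z₀.2 - z.2 := by
              have h3 : x + z.1 + z.2 = x + z₀.1 + z₀.2 := by rw [hz.2, hz₀.2]
              have h4 : z.1 + z.2 = z₀.1 + z₀.2 := by
                have := h3
                rw [add_assoc, add_assoc] at this
                exact add_left_cancel this
              rw [sub_eq_sub_iff_add_eq_add, h4]; abel
            show z.1 - z₀.1 ∈ H₂
            rw [e]
            exact H₂.sub_mem (hQ _ hz₀.1.2) (hQ _ hz.1.2)
          · intro z hz w hw hzw
            rw [Finset.mem_coe, Finset.mem_filter, Finset.mem_product] at hz hw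
            have h1' : z.1 = w.1 := sub_left_injective hzw
            have h2' : z.2 = w.2 := by
              have h3 : x + z.1 + z.2 = x + w.1 + w.2 := by rw [hz.2, hw.2]
              rw [h1'] at h3
              exact add_left_cancel h3
            exact Prod.ext h1' h2')
    exact this
  have hprod1 : U₂.card * V₁.card ≤ d * (C₂ \ C₁).card := by
    apply fiber
    · intro a ha; rw [hU₂, Finset.mem_filter, mem_els] at ha; exact ha.1
    · intro b hb; rw [hV₁, Finset.mem_filter, mem_els] at hb; exact hb.1
    · intro a ha b hb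
      rw [hU₂, Finset.mem_filter, mem_els] at ha
      rw [hV₁, Finset.mem_filter, mem_els] at hb
      rw [Finset.mem_sdiff]
      constructor
      · have e : x + a + b = x + b + a := by abel
        rw [e, hm2 b hb.1 a]; exact ha.2
      · rw [hm1 a ha.1 b]; exact hb.2
  have hprod2 : V₂.card * U₁.card ≤ d * (C₁ \ C₂).card := by
    apply fiber
    · intro a ha; rw [hV₂, Finset.mem_filter, mem_els] at ha; exact ha.1
    · intro b hb; rw [hU₁, Finset.mem_filter, mem_els] at hb; exact hb.1
    · intro a ha b hb
      rw [hV₂, Finset.mem_filter, mem_els] at ha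
      rw [hU₁, Finset.mem_filter, mem_els] at hb
      rw [Finset.mem_sdiff]
      constructor
      · rw [hm1 a ha.1 b]; exact hb.2
      · have e : x + a + b = x + b + a := by abel
        rw [e, hm2 b hb.1 a]; exact ha.2
  -- nonempty sets have at least d elements
  have big : ∀ (T : Finset G), (∀ t ∈ T, ∀ g ∈ H₁ ⊓ H₂, t + g ∈ T) → T.Nonempty → d ≤ T.card := by
    intro T hT ⟨t, ht⟩
    rw [hd]
    apply Finset.card_le_card_of_injOn (fun g => t + g)
    · intro g hg
      rw [Finset.mem_coe, mem_els] at hg
      exact hT t ht g hg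
    · intro a _ b _ hab
      exact add_left_cancel hab
  have bU₁ : U₁.Nonempty → d ≤ U₁.card := by
    apply big
    intro t ht g hg
    rw [hU₁, Finset.mem_filter, mem_els] at ht ⊢
    refine ⟨H₂.add_mem ht.1 hg.2, ?_⟩
    have e : x + (t + g) = x + g + t := by abel
    rw [e, hm1 g hg.1 t]; exact ht.2
  have bV₁ : V₁.Nonempty → d ≤ V₁.card := by
    apply big
    intro t ht g hg
    rw [hV₁, Finset.mem_filter, mem_els] at ht ⊢
    refine ⟨H₂.add_mem ht.1 hg.2, ?_⟩
    have e : x + (t + g) = x + g + t := by abel
    rw [e, hm1 g hg.1 t]; exact ht.2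
  have bU₂ : U₂.Nonempty → d ≤ U₂.card := by
    apply big
    intro t ht g hg
    rw [hU₂, Finset.mem_filter, mem_els] at ht ⊢
    refine ⟨H₁.add_mem ht.1 hg.1, ?_⟩
    have e : x + (t + g) = x + g + t := by abel
    rw [e, hm2 g hg.2 t]; exact ht.2
  have bV₂ : V₂.Nonempty → d ≤ V₂.card := by
    apply big
    intro t ht g hg
    rw [hV₂, Finset.mem_filter, mem_els] at ht ⊢
    refine ⟨H₁.add_mem ht.1 hg.1, ?_⟩
    have e : x + (t + g) = x + g + t := by abel
    rw [e, hm2 g hg.2 t]; exact ht.2
  have nV₁ : d ≤ V₁.card := bV₁ ⟨0, by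
    rw [hV₁, Finset.mem_filter, mem_els]
    exact ⟨H₂.zero_mem, by simpa using hx1⟩⟩
  have nU₂ : d ≤ U₂.card := bU₂ ⟨0, by
    rw [hU₂, Finset.mem_filter, mem_els]
    exact ⟨H₁.zero_mem, by simpa using hx2⟩⟩
  -- inequalities
  have i1 : (C₂ \ C₁).card + d < U₂.card + V₂.card := by omega
  have i2 : (C₁ \ C₂).card + d < U₁.card + V₁.card := by omega
  have j1 : U₂.card * V₁.card + d * d < d * (U₂.card + V₂.card) := by
    have := Nat.mul_lt_mul_of_pos_left i1 hdpos
    nlinarith
  have j2 : V₂.card * U₁.card + d * d < d * (U₁.card + V₁.card) := by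
    have := Nat.mul_lt_mul_of_pos_left i2 hdpos
    nlinarith
  rcases Finset.eq_empty_or_nonempty U₁ with hU | hU
  · rw [← hs1, ← hs2]
    have : U₁.card = 0 := by rw [hU]; simp
    rw [this]
    nlinarith
  · rcases Finset.eq_empty_or_nonempty V₂ with hV | hV
    · exfalso
      have : V₂.card = 0 := by rw [hV]; simp
      rw [this] at j1
      nlinarith
    · exfalso
      have a1 := bU₁ hU
      have a2 := bV₂ hV
      have b1 : V₁.card < V₂.card := by
        by_contra hcon
        push Not at hcon
        obtain ⟨u, hu⟩ := Nat.exists_eq_add_of_le nU₂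
        obtain ⟨v, hv⟩ := Nat.exists_eq_add_of_le nV₁
        have h5 : d * (U₂.card + V₂.card) ≤ d * (U₂.card + V₁.card) :=
          Nat.mul_le_mul_left _ (by omega)
        have h6 : d * (U₂.card + V₁.card) ≤ U₂.card * V₁.card + d * d := by
          rw [hu, hv]
          have : (d + u) * (d + v) + d * d = d * (d + u + (d + v)) + u * v := by ring
          rw [this]
          exact Nat.le_add_right _ _
        exact absurd j1 (not_lt.mpr (h5.trans h6))
      have b2 : V₂.card < V₁.card := by
        by_contra hcon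
        push Not at hcon
        obtain ⟨u, hu⟩ := Nat.exists_eq_add_of_le a2
        obtain ⟨v, hv⟩ := Nat.exists_eq_add_of_le a1
        have h5 : d * (U₁.card + V₁.card) ≤ d * (U₁.card + V₂.card) :=
          Nat.mul_le_mul_left _ (by omega)
        have h6 : d * (U₁.card + V₂.card) ≤ V₂.card * U₁.card + d * d := by
          rw [hu, hv]
          have : (d + u) * (d + v) + d * d = d * (d + v + (d + u)) + u * v := by ring
          rw [this]
          exact Nat.le_add_right _ _
        exact absurd j2 (not_lt.mpr (h5.trans h6))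
      omega

/-- Union lemma. -/
theorem union_lemma {N : ℕ} {C₁ C₂ : Finset G} (h1 : N ≤ C₁.card + (els (stab C₁)).card)
    (h2 : N ≤ C₂.card + (els (stab C₂)).card) :
    N ≤ (C₁ ∪ C₂).card + (els (stab (C₁ ∪ C₂))).card := by
  classical
  by_contra hcon
  push Not at hcon
  by_cases h12 : C₂ ⊆ C₁
  · rw [Finset.union_eq_left.mpr h12] at hcon
    omega
  by_cases h21 : C₁ ⊆ C₂
  · rw [Finset.union_eq_right.mpr h21] at hcon
    omega
  obtain ⟨x, hx2, hx1⟩ := Finset.not_subset.mp h12
  obtain ⟨y, hy1, hy2⟩ := Finset.not_subset.mp h21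
  have c1 : (C₁ ∪ C₂).card = C₁.card + (C₂ \ C₁).card := by
    rw [← Finset.card_union_of_disjoint Finset.disjoint_sdiff, Finset.union_sdiff_self_eq_union]
  have c2 : (C₁ ∪ C₂).card = C₂.card + (C₁ \ C₂).card := by
    rw [Finset.union_comm, ← Finset.card_union_of_disjoint Finset.disjoint_sdiff,
      Finset.union_sdiff_self_eq_union]
  have hle : stab C₁ ⊓ stab C₂ ≤ stab (C₁ ∪ C₂) := by
    intro g hg z
    rw [AddSubgroup.mem_inf] at hg
    rw [Finset.mem_union, Finset.mem_union, hg.1 z, hg.2 z]
  have hk := card_els_le_of_le hle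
  have hk' : (els (stab C₂ ⊓ stab C₁)).card ≤ (els (stab (C₁ ∪ C₂))).card := by
    rw [inf_comm]; exact hk
  have r1 := union_core (C₁ := C₁) (C₂ := C₂) (H₁ := stab C₁) (H₂ := stab C₂) (fun g hg => hg)
    (fun g hg => hg) hk (by omega) (by omega) hx2 hx1
  have r2 := union_core (C₁ := C₂) (C₂ := C₁) (H₁ := stab C₂) (H₂ := stab C₁) (fun g hg => hg)
    (fun g hg => hg) hk' (by omega) (by omega) hy1 hy2
  omega

/-- Transform lemma. -/
theorem transform_lemma (s : ℕ) : ∀ (A B : Finset G), B.card ≤ s → ∀ a₀ ∈ A, ∀ b₀ ∈ B,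
    ∃ C ⊆ A + B, a₀ + b₀ ∈ C ∧ A.card + B.card ≤ C.card + (els (stab C)).card := by
  classical
  induction s with
  | zero =>
    intro A B hB a₀ _ b₀ hb₀
    exfalso
    have : 0 < B.card := Finset.card_pos.mpr ⟨b₀, hb₀⟩
    omega
  | succ s ih =>
    intro A B hB a₀ ha₀ b₀ hb₀
    by_cases hall : ∀ a ∈ A, ∀ b ∈ B, a - b₀ + b ∈ A
    · refine ⟨A.image (fun a => a + b₀), ?_, ?_, ?_⟩
      · intro z hz
        rw [Finset.mem_image] at hz
        obtain ⟨a, ha, rfl⟩ := hz
        exact Finset.add_mem_add ha hb₀
      · exact Finset.mem_image_of_mem _ ha₀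
      · rw [Finset.card_image_of_injective _ (add_left_injective b₀)]
        have : B.card ≤ (els (stab (A.image (fun a => a + b₀)))).card := by
          apply Finset.card_le_card_of_injOn (fun b => b - b₀)
          · intro b hb
            rw [Finset.mem_coe, mem_els]
            apply mem_stab_of_forall
            intro z hz
            rw [Finset.mem_image] at hz ⊢
            obtain ⟨a, ha, rfl⟩ := hz
            refine ⟨a - b₀ + b, hall a ha b hb, ?_⟩
            show a - b₀ + b + b₀ = b - b₀ + (a + b₀)
            abel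
          · intro a _ b _ hab
            exact sub_left_injective hab
        omega
    · push Not at hall
      obtain ⟨a, ha, b, hb, hab⟩ := hall
      set A' := A ∪ B.image (fun z => z + (a - b₀)) with hA'
      set B' := B.filter (fun z => z + (a - b₀) ∈ A) with hB'
      have hb0' : b₀ ∈ B' := by
        rw [hB', Finset.mem_filter]
        refine ⟨hb₀, ?_⟩
        have : b₀ + (a - b₀) = a := by abel
        rw [this]; exact ha
      have hlt : B'.card < B.card := by
        apply Finset.card_lt_card
        refine ⟨Finset.filter_subset _ _, ?_⟩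
        intro hsub
        have := hsub hb
        rw [hB', Finset.mem_filter] at this
        apply hab
        have e : a - b₀ + b = b + (a - b₀) := by abel
        rw [e]; exact this.2
      have hcard : A'.card + B'.card = A.card + B.card := by
        have h1 := Finset.card_union_add_card_inter A (B.image (fun z => z + (a - b₀)))
        have h2 : (A ∩ B.image (fun z => z + (a - b₀))) = B'.image (fun z => z + (a - b₀)) := by
          ext y
          simp only [hB', Finset.mem_inter, Finset.mem_image, Finset.mem_filter]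
          constructor
          · rintro ⟨hy, z, hz, rfl⟩
            exact ⟨z, ⟨hz, hy⟩, rfl⟩
          · rintro ⟨z, ⟨hz, hzA⟩, rfl⟩
            exact ⟨hzA, z, hz, rfl⟩
        rw [h2, Finset.card_image_of_injective _ (add_left_injective _),
          Finset.card_image_of_injective _ (add_left_injective _)] at h1
        exact h1
      obtain ⟨C, hC1, hC2, hC3⟩ := ih A' B' (by omega) a₀ (Finset.mem_union_left _ ha₀) b₀ hb0'
      refine ⟨C, ?_, hC2, by omega⟩
      intro z hz
      have hz' := hC1 hz
      rw [Finset.mem_add] at hz'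
      obtain ⟨u, hu, v, hv, rfl⟩ := hz'
      rw [hB', Finset.mem_filter] at hv
      rw [hA', Finset.mem_union, Finset.mem_image] at hu
      rcases hu with hu | ⟨w, hw, rfl⟩
      · exact Finset.add_mem_add hu hv.1
      · have e : w + (a - b₀) + v = (v + (a - b₀)) + w := by abel
        rw [e]
        exact Finset.add_mem_add hv.2 hw

/-- Weak Kneser theorem. -/
theorem kneser {A B : Finset G} (hA : A.Nonempty) (hB : B.Nonempty) :
    A.card + B.card ≤ (A + B).card + (els (stab (A + B))).card := by
  classical
  -- family of good subsets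
  set F := (A + B).powerset.filter (fun C => A.card + B.card ≤ C.card + (els (stab C)).card) with hF
  have hne : F.Nonempty := by
    obtain ⟨a, ha⟩ := hA
    obtain ⟨b, hb⟩ := hB
    obtain ⟨C, h1, _, h3⟩ := transform_lemma B.card A B le_rfl a ha b hb
    exact ⟨C, by rw [hF, Finset.mem_filter, Finset.mem_powerset]; exact ⟨h1, h3⟩⟩
  obtain ⟨C, hCF, hCmax⟩ := Finset.exists_max_image F Finset.card hne
  rw [hF, Finset.mem_filter, Finset.mem_powerset] at hCF
  have hCeq : C = A + B := by
    by_contra hne'
    have hss : ¬ (A + B ⊆ C) := fun h => hne' (Finset.Subset.antisymm hCF.1 h)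
    obtain ⟨z, hz, hzC⟩ := Finset.not_subset.mp hss
    rw [Finset.mem_add] at hz
    obtain ⟨a, ha, b, hb, rfl⟩ := hz
    obtain ⟨C', h1, h2, h3⟩ := transform_lemma B.card A B le_rfl a ha b hb
    have hu := union_lemma hCF.2 h3
    have hmem : C ∪ C' ∈ F := by
      rw [hF, Finset.mem_filter, Finset.mem_powerset]
      exact ⟨Finset.union_subset hCF.1 h1, hu⟩
    have := hCmax _ hmem
    have hlt : C.card < (C ∪ C').card := by
      apply Finset.card_lt_card
      refine ⟨Finset.subset_union_left, ?_⟩
      intro hsub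
      exact hzC (hsub (Finset.mem_union_right _ h2))
    omega
  rw [← hCeq]
  exact hCF.2

/-- iterated sumset -/
def sm : ℕ → Finset G → Finset G
  | 0, _ => {0}
  | (k + 1), A => sm k A + A

theorem sm_zero (A : Finset G) : sm 0 A = {0} := rfl
theorem sm_succ (k : ℕ) (A : Finset G) : sm (k + 1) A = sm k A + A := rfl

theorem sm_nonempty {A : Finset G} (hA : A.Nonempty) (k : ℕ) : (sm k A).Nonempty := by
  induction k with
  | zero => exact ⟨0, by rw [sm_zero]; exact Finset.mem_singleton_self _⟩
  | succ k ih => rw [sm_succ]; exact ih.add hA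

theorem sm_one (A : Finset G) : sm 1 A = A := by
  rw [sm_succ, sm_zero, Finset.singleton_add]
  ext x; simp

theorem sm_add (j k : ℕ) (A : Finset G) : sm (j + k) A = sm j A + sm k A := by
  induction k with
  | zero => rw [sm_zero, Nat.add_zero, Finset.add_singleton]; ext x; simp
  | succ k ih => rw [← Nat.add_assoc, sm_succ, ih, sm_succ, add_assoc]

theorem sm_mul (j k : ℕ) (A : Finset G) : sm (j * k) A = sm j (sm k A) := by
  induction j with
  | zero => rw [Nat.zero_mul]; rfl
  | succ j ih => rw [Nat.succ_mul, sm_add, ih, sm_succ]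

theorem stab_le_stab_add (A B : Finset G) : stab A ≤ stab (A + B) := by
  intro g hg
  apply mem_stab_of_forall
  intro x hx
  rw [Finset.mem_add] at hx ⊢
  obtain ⟨a, ha, b, hb, rfl⟩ := hx
  exact ⟨g + a, (hg a).mpr ha, b, hb, by abel⟩

theorem stab_sm_mono {j k : ℕ} (h : j ≤ k) (A : Finset G) : stab (sm j A) ≤ stab (sm k A) := by
  obtain ⟨i, rfl⟩ := Nat.exists_eq_add_of_le h
  rw [sm_add]
  exact stab_le_stab_add _ _

/-- Iterated weak Kneser theorem for an aperiodic iterated sumset. -/
theorem kneser_sm {A : Finset G} (hA : A.Nonempty) (k : ℕ) (hk : 1 ≤ k)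
    (hst : stab (sm k A) = ⊥) : k * A.card + 1 ≤ (sm k A).card + k := by
  induction k with
  | zero => omega
  | succ k ih =>
    rcases Nat.eq_zero_or_pos k with rfl | hkpos
    · rw [sm_one]; omega
    · have hst' : stab (sm k A) = ⊥ := by
        apply le_antisymm _ bot_le
        rw [← hst]
        exact stab_sm_mono (Nat.le_succ k) A
      have h1 := ih hkpos hst'
      have h2 := kneser (sm_nonempty hA k) hA
      rw [← sm_succ, hst, card_els_bot] at h2
      rw [Nat.succ_mul]
      omega

end Pool.Agent.Helper750.Kneser
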